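import Mathlib
import Pool.Agent.TH407.MV.Defs
set_option autoImplicit false

/-!
# The positive kernel: weighted Schur test in symmetric coordinates
-/

namespace Pool.Agent.TH993.MV

open MeasureTheory Set Complex
open scoped ENNReal NNReal Real ComplexConjugate
open Pool.Agent.TH407.MV

/-! ### Integrals in one variable -/

theorem int_sq (a t c : ℝ) (ha : 0 < a) (ht : 0 < t) :
    ∫⁻ z : ℝ, ENNReal.ofReal (1 / (a + t * |z - c|) ^ 2) ≤ ENNReal.ofReal (π / (t * a)) := by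
  have h1 : ∫⁻ z : ℝ, ENNReal.ofReal (1 / (a + t * |z - c|) ^ 2) =
      ∫⁻ z : ℝ, ENNReal.ofReal (1 / (a + t * |z|) ^ 2) :=
    lintegral_sub_right_eq_self (fun z => ENNReal.ofReal (1 / (a + t * |z|) ^ 2)) c
  rw [h1]
  have h2 : ∀ z : ℝ, 1 / (a + t * |z|) ^ 2 ≤ (a ^ 2)⁻¹ * (1 + ((t / a) * z) ^ 2)⁻¹ := by
    intro z
    rw [← mul_inv, one_div]
    apply inv_anti₀
    · positivity
    · have h3 : a ^ 2 * (1 + ((t / a) * z) ^ 2) = a ^ 2 + t ^ 2 * z ^ 2 := by
        field_simp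
      rw [h3, ← sq_abs z]
      have h4 : 0 ≤ a * (t * |z|) := by positivity
      nlinarith
  have hta : t / a ≠ 0 := by positivity
  have hint : Integrable (fun z : ℝ => (a ^ 2)⁻¹ * (1 + ((t / a) * z) ^ 2)⁻¹) :=
    (integrable_inv_one_add_sq.comp_mul_left' hta).const_mul _
  have hval : ∫ z : ℝ, (a ^ 2)⁻¹ * (1 + ((t / a) * z) ^ 2)⁻¹ = π / (t * a) := by
    rw [integral_const_mul, Measure.integral_comp_mul_left (fun x => (1 + x ^ 2)⁻¹),
      integral_univ_inv_one_add_sq, abs_of_pos (by positivity), smul_eq_mul]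
    field_simp
  rw [← hval, ofReal_integral_eq_lintegral_ofReal hint (ae_of_all _ fun z => by positivity)]
  exact lintegral_mono fun z => ENNReal.ofReal_le_ofReal (h2 z)

theorem int_v (a t c : ℝ) (ha : 0 < a) (ht : 0 < t) :
    ∫⁻ v : ℝ, ENNReal.ofReal (2 * |v| / (a + t * |v ^ 2 - c|) ^ 2) ≤
      ENNReal.ofReal (2 * π / (t * a)) := by
  have hpiece : ∀ s : Set ℝ, MeasurableSet s → InjOn (fun v : ℝ => v ^ 2) s →
      ∫⁻ v in s, ENNReal.ofReal (2 * |v| / (a + t * |v ^ 2 - c|) ^ 2) ≤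
        ENNReal.ofReal (π / (t * a)) := by
    intro s hs hinj
    have h1 := lintegral_image_eq_lintegral_abs_deriv_mul hs (f := fun v : ℝ => v ^ 2)
      (f' := fun v => 2 * v) (fun x _ => by simpa using (hasDerivAt_pow 2 x).hasDerivWithinAt)
      hinj (fun z => ENNReal.ofReal (1 / (a + t * |z - c|) ^ 2))
    calc ∫⁻ v in s, ENNReal.ofReal (2 * |v| / (a + t * |v ^ 2 - c|) ^ 2)
        = ∫⁻ x in s, ENNReal.ofReal |2 * x| *
            ENNReal.ofReal (1 / (a + t * |x ^ 2 - c|) ^ 2) := by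
          refine lintegral_congr fun x => ?_
          rw [← ENNReal.ofReal_mul (abs_nonneg _), abs_mul, abs_two]
          congr 1
          ring
      _ = ∫⁻ z in (fun v : ℝ => v ^ 2) '' s, ENNReal.ofReal (1 / (a + t * |z - c|) ^ 2) :=
          h1.symm
      _ ≤ ENNReal.ofReal (π / (t * a)) :=
          (setLIntegral_le_lintegral _ _).trans (int_sq a t c ha ht)
  have h2 := hpiece (Iio 0) measurableSet_Iio (by
    intro x hx y hy h
    simp only [mem_Iio] at hx hy h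
    nlinarith)
  have h3 := hpiece (Iio 0)ᶜ measurableSet_Iio.compl (by
    intro x hx y hy h
    simp only [mem_compl_iff, mem_Iio, not_lt] at hx hy h
    exact (sq_eq_sq₀ hx hy).1 h)
  rw [← lintegral_add_compl _ (measurableSet_Iio (a := (0 : ℝ)))]
  refine (add_le_add h2 h3).trans ?_
  rw [← ENNReal.ofReal_add (by positivity) (by positivity)]
  apply ENNReal.ofReal_le_ofReal
  apply le_of_eq
  ring

theorem int_log (t : ℝ) (ht : 1 ≤ t) :
    ∫⁻ y in Icc (-4 : ℝ) 4, ENNReal.ofReal (1 / (1 + t * |y|)) ≤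
      ENNReal.ofReal (8 * (1 + Real.log t) / t) := by
  have ht0 : 0 < t := by linarith
  have hpos : ∀ y : ℝ, 0 < 1 + t * |y| := fun y => by positivity
  have hcont : Continuous (fun y : ℝ => 1 / (1 + t * |y|)) :=
    continuous_const.div (by fun_prop) (fun y => (hpos y).ne')
  have h1 : ∫⁻ y in Icc (-4 : ℝ) 4, ENNReal.ofReal (1 / (1 + t * |y|)) =
      ENNReal.ofReal (∫ y in Icc (-4 : ℝ) 4, 1 / (1 + t * |y|)) :=
    (ofReal_integral_eq_lintegral_ofReal (hcont.integrableOn_Icc)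
      (ae_of_all _ fun y => (div_pos one_pos (hpos y)).le)).symm
  have h2 : ∫ y in (0 : ℝ)..4, 1 / (1 + t * |y|) = Real.log (1 + 4 * t) / t := by
    have h3 : ∫ y in (0 : ℝ)..4, 1 / (1 + t * |y|) = ∫ y in (0 : ℝ)..4, 1 / (1 + t * y) := by
      apply intervalIntegral.integral_congr
      intro y hy
      rw [uIcc_of_le (by norm_num)] at hy
      simp only [abs_of_nonneg hy.1]
    rw [h3, intervalIntegral.integral_eq_sub_of_hasDerivAt
      (f := fun y => Real.log (1 + t * y) / t)]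
    · simp only [mul_zero, add_zero, Real.log_one, zero_div, sub_zero]
      rw [mul_comm t 4]
    · intro y hy
      rw [uIcc_of_le (by norm_num)] at hy
      have hp : 0 < 1 + t * y := by
        have := hy.1
        positivity
      have h4 : HasDerivAt (fun y => 1 + t * y) t y := by
        simpa using ((hasDerivAt_id y).const_mul t).const_add 1
      have h5 := (h4.log hp.ne').div_const t
      refine h5.congr_deriv ?_
      field_simp
    · apply ContinuousOn.intervalIntegrable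
      intro y hy
      rw [uIcc_of_le (by norm_num)] at hy
      have hp : 0 < 1 + t * y := by
        have := hy.1
        positivity
      have h6 : ContinuousAt (fun y : ℝ => 1 / (1 + t * y)) y :=
        ContinuousAt.div continuousAt_const (by fun_prop) hp.ne'
      exact h6.continuousWithinAt
  have h3 : ∫ y in (-4 : ℝ)..0, 1 / (1 + t * |y|) = Real.log (1 + 4 * t) / t := by
    rw [← h2]
    have h4 := intervalIntegral.integral_comp_neg (a := (0 : ℝ)) (b := 4)
      (fun y => 1 / (1 + t * |y|))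
    simp only [abs_neg, neg_zero] at h4
    exact h4.symm
  rw [h1, integral_Icc_eq_integral_Ioc, ← intervalIntegral.integral_of_le (by norm_num),
    ← intervalIntegral.integral_add_adjacent_intervals (b := 0)
      (hcont.intervalIntegrable _ _) (hcont.intervalIntegrable _ _), h2, h3]
  apply ENNReal.ofReal_le_ofReal
  rw [← add_div]
  apply div_le_div_of_nonneg_right _ ht0.le
  have h5 : Real.log (1 + 4 * t) ≤ 4 + Real.log t := by
    calc Real.log (1 + 4 * t) ≤ Real.log (5 * t) :=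
          Real.log_le_log (by positivity) (by linarith)
      _ = Real.log 5 + Real.log t := Real.log_mul (by norm_num) ht0.ne'
      _ ≤ 4 + Real.log t := by
          have := Real.log_le_sub_one_of_pos (show (0 : ℝ) < 5 by norm_num)
          linarith
  have h6 := Real.log_nonneg ht
  linarith

/-- the same integral with a shift -/
theorem int_log' (t s r : ℝ) (ht : 1 ≤ t) (h : |s| + r ≤ 4) :
    ∫⁻ u in Icc (-r) r, ENNReal.ofReal (1 / (1 + t * |u - s|)) ≤
      ENNReal.ofReal (8 * (1 + Real.log t) / t) := by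
  refine le_trans ?_ (int_log t ht)
  rw [← lintegral_indicator measurableSet_Icc, ← lintegral_indicator measurableSet_Icc,
    ← lintegral_sub_right_eq_self
      ((Icc (-4 : ℝ) 4).indicator fun y => ENNReal.ofReal (1 / (1 + t * |y|))) s]
  apply lintegral_mono
  intro u
  by_cases hu : u ∈ Icc (-r) r
  · have h1 : u - s ∈ Icc (-4 : ℝ) 4 := by
      have h2 := abs_le.1 (show |s| ≤ |s| from le_rfl)
      constructor
      · linarith [hu.1, hu.2]
      · linarith [hu.1, hu.2]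
    simp only [indicator_of_mem hu, indicator_of_mem h1, le_refl]
  · simp only [indicator_of_notMem hu, zero_le]

/-! ### Symmetric coordinates -/

theorem change (Φ : ℝ → ℝ → ℝ≥0∞) (hΦ : Measurable (fun p : ℝ × ℝ => Φ p.1 p.2)) :
    ∫⁻ x : ℝ, ∫⁻ y : ℝ, Φ (x + y) ((y - x) / 2) = ∫⁻ u : ℝ, ∫⁻ v : ℝ, Φ u v := by
  rw [lintegral_lintegral_swap (by
    apply Measurable.aemeasurable
    exact hΦ.comp (f := fun p : ℝ × ℝ => (p.1 + p.2, (p.2 - p.1) / 2)) (by fun_prop))]
  have h1 : ∀ y : ℝ, ∫⁻ x : ℝ, Φ (x + y) ((y - x) / 2) = ∫⁻ u : ℝ, Φ u (y - u / 2) := by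
    intro y
    rw [← lintegral_add_right_eq_self (fun u => Φ u (y - u / 2)) y]
    refine lintegral_congr fun x => ?_
    congr 1
    ring
  simp only [h1]
  rw [lintegral_lintegral_swap (by
    apply Measurable.aemeasurable
    exact hΦ.comp (f := fun p : ℝ × ℝ => (p.2, p.1 - p.2 / 2)) (by fun_prop))]
  refine lintegral_congr fun u => ?_
  exact lintegral_sub_right_eq_self (fun v => Φ u v) (u / 2)

/-! ### The Schur test -/

theorem amgm (x y r : ℝ≥0∞) (hx : x ≠ ∞) (hy : y ≠ ∞) (hr : r ≠ 0) (hr' : r ≠ ∞) :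
    2 * (x * y) ≤ x ^ 2 * r + y ^ 2 * r⁻¹ := by
  lift x to ℝ≥0 using hx
  lift y to ℝ≥0 using hy
  lift r to ℝ≥0 using hr'
  have hr0 : r ≠ 0 := by exact_mod_cast hr
  rw [← ENNReal.coe_inv hr0]
  norm_cast
  rw [← NNReal.coe_le_coe]
  push_cast
  have hr1 : (0 : ℝ) < r := by
    have := pos_iff_ne_zero.2 hr0
    exact_mod_cast this
  have h1 : (x : ℝ) ^ 2 * r + (y : ℝ) ^ 2 * (r : ℝ)⁻¹ - 2 * (x * y) =
      ((x : ℝ) * r - y) ^ 2 * (r : ℝ)⁻¹ := by
    field_simp
    ring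
  have h2 : 0 ≤ ((x : ℝ) * r - y) ^ 2 * (r : ℝ)⁻¹ := by positivity
  linarith

theorem schur_test {α : Type*} [MeasurableSpace α] (ν : Measure α) [SFinite ν]
    (G W : α → ℝ≥0∞) (K : α → α → ℝ≥0∞) (hG : Measurable G) (hW : Measurable W)
    (hK : Measurable (fun p : α × α => K p.1 p.2)) (hsymm : ∀ p q, K p q = K q p)
    (hGf : ∀ p, G p ≠ ∞) (hW0 : ∀ p, W p ≠ 0) (hWf : ∀ p, W p ≠ ∞) (A : ℝ≥0∞)
    (hA : ∀ p, G p ≠ 0 → ∫⁻ q, W q * K p q ∂ν ≤ A) :
    ∫⁻ p, ∫⁻ q, G p * G q * K p q ∂ν ∂ν ≤ A * ∫⁻ p, G p ^ 2 * (W p)⁻¹ ∂ν := by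
  set H : α → α → ℝ≥0∞ := fun p q => G p ^ 2 * (W p)⁻¹ * (W q * K p q) with hH
  have hHm : Measurable (fun p : α × α => H p.1 p.2) := by
    simp only [hH]
    fun_prop
  have h1 : ∀ p q, 2 * (G p * G q * K p q) ≤ H p q + H q p := by
    intro p q
    have h2 := amgm (G p) (G q) (W q / W p) (hGf p) (hGf q)
      (ENNReal.div_ne_zero.2 ⟨hW0 q, hWf p⟩) (ENNReal.div_ne_top (hWf q) (hW0 p))
    have h3 : (W q / W p)⁻¹ = W p / W q := ENNReal.inv_div (Or.inl (hWf p)) (Or.inl (hW0 p))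
    rw [h3] at h2
    calc 2 * (G p * G q * K p q) = (2 * (G p * G q)) * K p q := by ring
      _ ≤ (G p ^ 2 * (W q / W p) + G q ^ 2 * (W p / W q)) * K p q := by gcongr
      _ = H p q + H q p := by
          simp only [hH, hsymm q p, div_eq_mul_inv]
          ring
  have h2 : ∫⁻ p, ∫⁻ q, H q p ∂ν ∂ν = ∫⁻ p, ∫⁻ q, H p q ∂ν ∂ν := by
    rw [lintegral_lintegral_swap (by
      apply Measurable.aemeasurable
      exact hHm.comp (f := fun p : α × α => (p.2, p.1)) (by fun_prop))]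
  have h3 : 2 * ∫⁻ p, ∫⁻ q, G p * G q * K p q ∂ν ∂ν ≤ 2 * ∫⁻ p, ∫⁻ q, H p q ∂ν ∂ν := by
    have hm1 : Measurable (fun p : α × α => G p.1 * G p.2 * K p.1 p.2) := by fun_prop
    calc 2 * ∫⁻ p, ∫⁻ q, G p * G q * K p q ∂ν ∂ν
        = ∫⁻ p, ∫⁻ q, 2 * (G p * G q * K p q) ∂ν ∂ν := by
          rw [← lintegral_const_mul _ hm1.lintegral_prod_right']
          refine lintegral_congr fun p => ?_
          rw [lintegral_const_mul]
          exact hm1.comp (f := fun q : α => (p, q)) (by fun_prop)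
      _ ≤ ∫⁻ p, ∫⁻ q, (H p q + H q p) ∂ν ∂ν :=
          lintegral_mono fun p => lintegral_mono fun q => h1 p q
      _ = ∫⁻ p, ((∫⁻ q, H p q ∂ν) + ∫⁻ q, H q p ∂ν) ∂ν := by
          refine lintegral_congr fun p => ?_
          exact lintegral_add_left (hHm.comp (f := fun q : α => (p, q)) (by fun_prop)) _
      _ = (∫⁻ p, ∫⁻ q, H p q ∂ν ∂ν) + ∫⁻ p, ∫⁻ q, H q p ∂ν ∂ν :=
          lintegral_add_left hHm.lintegral_prod_right' _
      _ = 2 * ∫⁻ p, ∫⁻ q, H p q ∂ν ∂ν := by rw [h2, two_mul]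
  have h4 : ∫⁻ p, ∫⁻ q, G p * G q * K p q ∂ν ∂ν ≤ ∫⁻ p, ∫⁻ q, H p q ∂ν ∂ν := by
    exact (ENNReal.mul_le_mul_iff_right (by norm_num) (by norm_num)).1 h3
  refine h4.trans ?_
  have hm2 : Measurable (fun p => G p ^ 2 * (W p)⁻¹) := by fun_prop
  rw [← lintegral_const_mul _ hm2]
  apply lintegral_mono
  intro p
  have hm3 : Measurable (fun q => W q * K p q) :=
    hW.mul (hK.comp (f := fun q : α => (p, q)) (by fun_prop))
  simp only [hH]
  rw [lintegral_const_mul _ hm3, mul_comm A]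
  by_cases h0 : G p = 0
  · rw [h0]
    simp
  · gcongr
    exact hA p h0

/-! ### The kernel -/

/-- the integrand in symmetric coordinates -/
noncomputable def FF (t s P u v : ℝ) : ℝ :=
  (2 * |v| + 1 / t) * (1 / ((1 + t * |u - s|) + t * |v ^ 2 - (u ^ 2 / 4 - P)|) ^ 2)

theorem FF_int (t s P u : ℝ) (ht : 1 ≤ t) :
    ∫⁻ v in Icc (-1 : ℝ) 1, ENNReal.ofReal (FF t s P u v) ≤
      ENNReal.ofReal (2 * π / t) * ENNReal.ofReal (1 / (1 + t * |u - s|)) +
        ENNReal.ofReal (2 / t) * ENNReal.ofReal (1 / (1 + t * |u - s|) ^ 2) := by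
  have ht0 : 0 < t := by linarith
  set a := 1 + t * |u - s| with ha
  have ha0 : 0 < a := by positivity
  set c := u ^ 2 / 4 - P with hc
  have hpos : ∀ v : ℝ, 0 < a + t * |v ^ 2 - c| := fun v => by positivity
  have h1 : ∀ v : ℝ, ENNReal.ofReal (FF t s P u v) ≤
      ENNReal.ofReal (2 * |v| / (a + t * |v ^ 2 - c|) ^ 2) + ENNReal.ofReal (1 / t * (1 / a ^ 2)) := by
    intro v
    rw [← ENNReal.ofReal_add (by positivity) (by positivity)]
    apply ENNReal.ofReal_le_ofReal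
    have h2 : 1 / (a + t * |v ^ 2 - c|) ^ 2 ≤ 1 / a ^ 2 := by
      apply one_div_le_one_div_of_le (by positivity)
      have : 0 ≤ t * |v ^ 2 - c| := by positivity
      nlinarith
    have h3 : FF t s P u v = 2 * |v| / (a + t * |v ^ 2 - c|) ^ 2 +
        1 / t * (1 / (a + t * |v ^ 2 - c|) ^ 2) := by
      rw [FF, ← ha, ← hc]
      ring
    rw [h3]
    have h4 : 1 / t * (1 / (a + t * |v ^ 2 - c|) ^ 2) ≤ 1 / t * (1 / a ^ 2) :=
      mul_le_mul_of_nonneg_left h2 (by positivity)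
    linarith
  calc ∫⁻ v in Icc (-1 : ℝ) 1, ENNReal.ofReal (FF t s P u v)
      ≤ ∫⁻ v in Icc (-1 : ℝ) 1, (ENNReal.ofReal (2 * |v| / (a + t * |v ^ 2 - c|) ^ 2) +
          ENNReal.ofReal (1 / t * (1 / a ^ 2))) := lintegral_mono h1
    _ = (∫⁻ v in Icc (-1 : ℝ) 1, ENNReal.ofReal (2 * |v| / (a + t * |v ^ 2 - c|) ^ 2)) +
          ∫⁻ v in Icc (-1 : ℝ) 1, ENNReal.ofReal (1 / t * (1 / a ^ 2)) :=
        lintegral_add_right _ measurable_const
    _ ≤ ENNReal.ofReal (2 * π / (t * a)) + ENNReal.ofReal (2 / t * (1 / a ^ 2)) := by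
        apply add_le_add
        · exact (setLIntegral_le_lintegral _ _).trans (int_v a t c ha0 ht0)
        · rw [setLIntegral_const, Real.volume_Icc, ← ENNReal.ofReal_mul (by positivity)]
          apply ENNReal.ofReal_le_ofReal
          apply le_of_eq
          ring
    _ = ENNReal.ofReal (2 * π / t) * ENNReal.ofReal (1 / a) +
        ENNReal.ofReal (2 / t) * ENNReal.ofReal (1 / a ^ 2) := by
        rw [← ENNReal.ofReal_mul (by positivity), ← ENNReal.ofReal_mul (by positivity)]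
        congr 2
        field_simp

theorem inner (t x1 x2 : ℝ) (ht : 1 ≤ t) (h1 : |x1| ≤ 1) (h2 : |x2| ≤ 1) :
    ∫⁻ x3 in Icc (-1 : ℝ) 1, ∫⁻ x4 in Icc (-1 : ℝ) 1, ENNReal.ofReal (|x3 - x4| + 1 / t) *
      ENNReal.ofReal (1 / (1 + t * dS x1 x2 x3 x4) ^ 2) ≤
      ENNReal.ofReal (60 * (1 + Real.log t) / t ^ 2) := by
  have ht0 : 0 < t := by linarith
  set s := x1 + x2 with hs
  set P := x1 * x2 with hP
  set Φ : ℝ → ℝ → ℝ≥0∞ := fun u v =>
    (Icc (-2 : ℝ) 2 ×ˢ Icc (-1 : ℝ) 1).indicator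
      (fun p => ENNReal.ofReal (FF t s P p.1 p.2)) (u, v) with hΦ
  have hFm : Measurable (fun p : ℝ × ℝ => ENNReal.ofReal (FF t s P p.1 p.2)) := by
    unfold FF
    fun_prop
  have hΦm : Measurable (fun p : ℝ × ℝ => Φ p.1 p.2) := by
    simp only [hΦ]
    exact hFm.indicator (measurableSet_Icc.prod measurableSet_Icc)
  have hA : ∫⁻ x3 in Icc (-1 : ℝ) 1, ∫⁻ x4 in Icc (-1 : ℝ) 1,
      ENNReal.ofReal (|x3 - x4| + 1 / t) * ENNReal.ofReal (1 / (1 + t * dS x1 x2 x3 x4) ^ 2) ≤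
      ∫⁻ x3 : ℝ, ∫⁻ x4 : ℝ, Φ (x3 + x4) ((x4 - x3) / 2) := by
    refine le_trans (setLIntegral_mono' measurableSet_Icc fun x3 hx3 => ?_)
      (setLIntegral_le_lintegral (Icc (-1 : ℝ) 1) _)
    refine le_trans (setLIntegral_mono' measurableSet_Icc fun x4 hx4 => ?_)
      (setLIntegral_le_lintegral (Icc (-1 : ℝ) 1) _)
    have hmem : (x3 + x4, (x4 - x3) / 2) ∈ Icc (-2 : ℝ) 2 ×ˢ Icc (-1 : ℝ) 1 := by
      simp only [mem_prod, mem_Icc] at hx3 hx4 ⊢
      refine ⟨⟨?_, ?_⟩, ?_, ?_⟩ <;> linarith [hx3.1, hx3.2, hx4.1, hx4.2]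
    simp only [hΦ, indicator_of_mem hmem]
    rw [← ENNReal.ofReal_mul (by positivity)]
    apply ENNReal.ofReal_le_ofReal
    apply le_of_eq
    rw [FF, dS]
    have e1 : |x3 - x4| = 2 * |(x4 - x3) / 2| := by
      rw [abs_div, abs_two, abs_sub_comm]
      ring
    have e2 : |x1 + x2 - x3 - x4| = |x3 + x4 - s| := by
      rw [hs, abs_sub_comm (x3 + x4)]
      congr 1
      ring
    have e3 : |x1 * x2 - x3 * x4| = |((x4 - x3) / 2) ^ 2 - ((x3 + x4) ^ 2 / 4 - P)| := by
      rw [hP]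
      congr 1
      ring
    rw [e1, e2, e3, mul_add, add_assoc]
  have hC : ∀ u, ∫⁻ v : ℝ, Φ u v ≤ (Icc (-2 : ℝ) 2).indicator (fun u =>
      ENNReal.ofReal (2 * π / t) * ENNReal.ofReal (1 / (1 + t * |u - s|)) +
        ENNReal.ofReal (2 / t) * ENNReal.ofReal (1 / (1 + t * |u - s|) ^ 2)) u := by
    intro u
    by_cases hu : u ∈ Icc (-2 : ℝ) 2
    · rw [indicator_of_mem hu]
      refine le_trans (le_of_eq ?_) (FF_int t s P u ht)
      rw [← lintegral_indicator measurableSet_Icc]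
      refine lintegral_congr fun v => ?_
      simp only [hΦ]
      by_cases hv : v ∈ Icc (-1 : ℝ) 1
      · rw [indicator_of_mem hv, indicator_of_mem (mk_mem_prod hu hv)]
      · rw [indicator_of_notMem hv, indicator_of_notMem (fun h => hv h.2)]
    · rw [indicator_of_notMem hu]
      have h0 : ∀ v, Φ u v = 0 := by
        intro v
        simp only [hΦ]
        rw [indicator_of_notMem (fun h => hu h.1)]
      simp only [h0, lintegral_zero, le_refl]
  have hlog := Real.log_nonneg ht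
  calc _ ≤ ∫⁻ x3 : ℝ, ∫⁻ x4 : ℝ, Φ (x3 + x4) ((x4 - x3) / 2) := hA
    _ = ∫⁻ u : ℝ, ∫⁻ v : ℝ, Φ u v := change Φ hΦm
    _ ≤ ∫⁻ u in Icc (-2 : ℝ) 2,
          (ENNReal.ofReal (2 * π / t) * ENNReal.ofReal (1 / (1 + t * |u - s|)) +
          ENNReal.ofReal (2 / t) * ENNReal.ofReal (1 / (1 + t * |u - s|) ^ 2)) := by
        rw [← lintegral_indicator measurableSet_Icc]
        exact lintegral_mono hC
    _ = ENNReal.ofReal (2 * π / t) *
          (∫⁻ u in Icc (-2 : ℝ) 2, ENNReal.ofReal (1 / (1 + t * |u - s|))) +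
        ENNReal.ofReal (2 / t) *
          ∫⁻ u in Icc (-2 : ℝ) 2, ENNReal.ofReal (1 / (1 + t * |u - s|) ^ 2) := by
        rw [lintegral_add_left (by fun_prop), lintegral_const_mul _ (by fun_prop),
          lintegral_const_mul _ (by fun_prop)]
    _ ≤ ENNReal.ofReal (2 * π / t) * ENNReal.ofReal (8 * (1 + Real.log t) / t) +
        ENNReal.ofReal (2 / t) * ENNReal.ofReal (π / (t * 1)) := by
        gcongr
        · apply int_log' t s 2 ht
          have := abs_add_le x1 x2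
          linarith
        · exact (setLIntegral_le_lintegral _ _).trans (int_sq 1 t s one_pos ht0)
    _ ≤ ENNReal.ofReal (60 * (1 + Real.log t) / t ^ 2) := by
        rw [← ENNReal.ofReal_mul (by positivity), ← ENNReal.ofReal_mul (by positivity),
          ← ENNReal.ofReal_add (by positivity) (by positivity)]
        apply ENNReal.ofReal_le_ofReal
        have h3 : 2 * π / t * (8 * (1 + Real.log t) / t) + 2 / t * (π / (t * 1)) =
            π * (16 * (1 + Real.log t) + 2) / t ^ 2 := by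
          field_simp
          ring
        rw [h3]
        apply div_le_div_of_nonneg_right _ (by positivity)
        have h4 := Real.pi_lt_d2
        nlinarith [Real.pi_pos]

theorem res (f : ℝ → ℝ≥0∞) (h : ∀ x, x ∉ Icc (-1 : ℝ) 1 → f x = 0) :
    ∫⁻ x, f x = ∫⁻ x in Icc (-1 : ℝ) 1, f x := by
  rw [← lintegral_indicator measurableSet_Icc]
  refine lintegral_congr fun x => ?_
  by_cases hx : x ∈ Icc (-1 : ℝ) 1
  · rw [indicator_of_mem hx]
  · rw [indicator_of_notMem hx, h x hx]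

theorem weight (t x : ℝ) (ht : 1 ≤ t) (hx : |x| ≤ 1) :
    ∫⁻ y in Icc (-1 : ℝ) 1, (ENNReal.ofReal (|x - y| + 1 / t))⁻¹ ≤
      ENNReal.ofReal (8 * (1 + Real.log t)) := by
  have ht0 : 0 < t := by linarith
  have h1 : ∀ y : ℝ, (ENNReal.ofReal (|x - y| + 1 / t))⁻¹ =
      ENNReal.ofReal t * ENNReal.ofReal (1 / (1 + t * |y - x|)) := by
    intro y
    rw [← ENNReal.ofReal_inv_of_pos (by positivity), ← ENNReal.ofReal_mul ht0.le, abs_sub_comm]
    congr 1
    field_simp
    ring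
  simp only [h1]
  rw [lintegral_const_mul _ (by fun_prop)]
  refine (mul_le_mul_right (int_log' t x 1 ht (by linarith)) _).trans ?_
  rw [← ENNReal.ofReal_mul ht0.le]
  apply ENNReal.ofReal_le_ofReal
  apply le_of_eq
  field_simp

theorem schur : Schur := by
  refine ⟨480, fun t g B ht hg hg0 hgB => ?_⟩
  have ht0 : 0 < t := by linarith
  have hlog := Real.log_nonneg ht
  set S := Icc (-1 : ℝ) 1 with hS
  set μ := (volume : Measure ℝ).restrict S with hμ
  set G : ℝ × ℝ → ℝ≥0∞ := fun p => g p.1 * g p.2 with hG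
  set W : ℝ × ℝ → ℝ≥0∞ := fun p => ENNReal.ofReal (|p.1 - p.2| + 1 / t) with hW
  set K : ℝ × ℝ → ℝ × ℝ → ℝ≥0∞ := fun p q =>
    ENNReal.ofReal (1 / (1 + t * dS p.1 p.2 q.1 q.2) ^ 2) with hK
  have hGm : Measurable G := by
    simp only [hG]
    fun_prop
  have hWm : Measurable W := by
    simp only [hW]
    fun_prop
  have hKm : Measurable (fun p : (ℝ × ℝ) × (ℝ × ℝ) => K p.1 p.2) := by
    simp only [hK]
    unfold dS
    fun_prop
  have hgf : ∀ x, g x ≠ ∞ := fun x => ne_top_of_le_ne_top ENNReal.coe_ne_top (hgB x)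
  have habs : ∀ x : ℝ, g x ≠ 0 → |x| ≤ 1 := by
    intro x hx
    by_contra h
    apply hx
    apply hg0
    intro h'
    exact h (abs_le.2 h')
  have hA : ∀ p, G p ≠ 0 → ∫⁻ q, W q * K p q ∂(μ.prod μ) ≤
      ENNReal.ofReal (60 * (1 + Real.log t) / t ^ 2) := by
    intro p hp
    have h1 : g p.1 ≠ 0 := fun h => hp (by simp only [hG, h, zero_mul])
    have h2 : g p.2 ≠ 0 := fun h => hp (by simp only [hG, h, mul_zero])
    rw [lintegral_prod _ (by
      apply Measurable.aemeasurable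
      exact hWm.mul (hKm.comp (f := fun q : ℝ × ℝ => (p, q)) (by fun_prop)))]
    exact inner t p.1 p.2 ht (habs _ h1) (habs _ h2)
  have hlhs : ∫⁻ x1, ∫⁻ x2, ∫⁻ x3, ∫⁻ x4, g x1 * g x2 * g x3 * g x4 *
      ENNReal.ofReal (1 / (1 + t * dS x1 x2 x3 x4) ^ 2) =
      ∫⁻ p, ∫⁻ q, G p * G q * K p q ∂(μ.prod μ) ∂(μ.prod μ) := by
    have hm : Measurable (fun p : (ℝ × ℝ) × (ℝ × ℝ) => G p.1 * G p.2 * K p.1 p.2) := by
      fun_prop
    rw [lintegral_prod _ hm.lintegral_prod_right'.aemeasurable, res _ (by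
      intro x1 hx1
      simp [hg0 x1 hx1])]
    refine lintegral_congr fun x1 => ?_
    rw [res _ (by
      intro x2 hx2
      simp [hg0 x2 hx2])]
    refine lintegral_congr fun x2 => ?_
    rw [lintegral_prod _ (by
      apply Measurable.aemeasurable
      exact hm.comp (f := fun q : ℝ × ℝ => ((x1, x2), q)) (by fun_prop)), res _ (by
      intro x3 hx3
      simp [hg0 x3 hx3])]
    refine lintegral_congr fun x3 => ?_
    rw [res _ (by
      intro x4 hx4
      simp [hg0 x4 hx4])]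
    refine lintegral_congr fun x4 => ?_
    simp only [hG, hK, mul_assoc]
  have hrhs : ∫⁻ p, G p ^ 2 * (W p)⁻¹ ∂(μ.prod μ) ≤
      (B : ℝ≥0∞) ^ 2 * ENNReal.ofReal (8 * (1 + Real.log t)) * ∫⁻ x, g x ^ 2 := by
    rw [lintegral_prod _ (by
      apply Measurable.aemeasurable
      fun_prop)]
    refine le_trans ?_ (mul_le_mul_right (setLIntegral_le_lintegral S _) _)
    rw [← lintegral_const_mul _ (by fun_prop)]
    apply lintegral_mono
    intro x
    by_cases h0 : g x = 0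
    · simp [hG, h0]
    · have h1 : ∀ y, G (x, y) ^ 2 * (W (x, y))⁻¹ ≤
          g x ^ 2 * (B : ℝ≥0∞) ^ 2 * (ENNReal.ofReal (|x - y| + 1 / t))⁻¹ := by
        intro y
        simp only [hG, hW, mul_pow]
        gcongr
        exact hgB y
      refine (lintegral_mono h1).trans ?_
      rw [lintegral_const_mul _ (by fun_prop)]
      calc g x ^ 2 * (B : ℝ≥0∞) ^ 2 * ∫⁻ y in S, (ENNReal.ofReal (|x - y| + 1 / t))⁻¹
          ≤ g x ^ 2 * (B : ℝ≥0∞) ^ 2 * ENNReal.ofReal (8 * (1 + Real.log t)) := by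
            gcongr
            exact weight t x ht (habs x h0)
        _ = (B : ℝ≥0∞) ^ 2 * ENNReal.ofReal (8 * (1 + Real.log t)) * g x ^ 2 := by ring
  rw [hlhs]
  refine (schur_test (μ.prod μ) G W K hGm hWm hKm ?_ ?_ ?_ ?_ _ hA).trans ?_
  · intro p q
    simp only [hK, dS]
    have e1 : |p.1 + p.2 - q.1 - q.2| = |q.1 + q.2 - p.1 - p.2| := by
      rw [← abs_neg]
      congr 1
      ring
    rw [e1, abs_sub_comm (p.1 * p.2)]
  · intro p
    exact ENNReal.mul_ne_top (hgf _) (hgf _)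
  · intro p
    simp only [hW]
    rw [ENNReal.ofReal_ne_zero_iff]
    positivity
  · intro p
    exact ENNReal.ofReal_ne_top
  · refine (mul_le_mul_right hrhs _).trans (le_of_eq ?_)
    have h1 : ENNReal.ofReal (60 * (1 + Real.log t) / t ^ 2) *
        ENNReal.ofReal (8 * (1 + Real.log t)) =
        480 * ENNReal.ofReal ((1 + Real.log t) ^ 2 / t ^ 2) := by
      rw [← ENNReal.ofReal_mul (by positivity), show (480 : ℝ≥0∞) = ENNReal.ofReal 480 by simp,
        ← ENNReal.ofReal_mul (by norm_num)]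
      congr 1
      ring
    calc _ = (ENNReal.ofReal (60 * (1 + Real.log t) / t ^ 2) *
        ENNReal.ofReal (8 * (1 + Real.log t))) * (B : ℝ≥0∞) ^ 2 * ∫⁻ x, g x ^ 2 := by ring
      _ = _ := by
        rw [h1]
        simp

end Pool.Agent.TH993.MV
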